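import Mathlib

/-!
# `Proj` of a surjective graded ring homomorphism is a closed immersion
-/

open CategoryTheory AlgebraicGeometry HomogeneousLocalization HomogeneousIdeal

universe u

noncomputable section

namespace FQ

variable {A B σ τ : Type u} [CommRing A] [SetLike σ A] [AddSubgroupClass σ A]
  [CommRing B] [SetLike τ B] [AddSubgroupClass τ B]
  {𝒜 : ℕ → σ} {ℬ : ℕ → τ} [GradedRing 𝒜] [GradedRing ℬ]

/-- Homogeneous elements lift to homogeneous elements of the same degree. -/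
theorem exists_homogeneous_lift (f : 𝒜 →+*ᵍ ℬ) (hs : Function.Surjective f) {n : ℕ} {b : B}
    (hb : b ∈ ℬ n) : ∃ a ∈ 𝒜 n, f a = b := by
  obtain ⟨a, rfl⟩ := hs b
  refine ⟨DirectSum.decompose 𝒜 a n, (DirectSum.decompose 𝒜 a n).2, ?_⟩
  have := f.map_directSumDecompose (x := a) (i := n)
  rw [this, DirectSum.decompose_of_mem_same ℬ hb]

theorem irrelevant_le_map (f : 𝒜 →+*ᵍ ℬ) (hs : Function.Surjective f) :
    irrelevant ℬ ≤ (irrelevant 𝒜).map f := by
  intro b hb
  obtain ⟨a, rfl⟩ := hs b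
  have h0 : f (DirectSum.decompose 𝒜 a 0) = 0 := by
    have := f.map_directSumDecompose (x := a) (i := 0)
    rw [this]
    exact hb
  have h1 : f (a - DirectSum.decompose 𝒜 a 0) = f a := by
    rw [map_sub, h0, sub_zero]
  rw [← h1]
  refine Ideal.mem_map_of_mem _ ?_
  show GradedRing.proj 𝒜 0 (a - DirectSum.decompose 𝒜 a 0) = 0
  rw [map_sub, GradedRing.proj_apply, GradedRing.proj_apply,
    DirectSum.decompose_of_mem_same 𝒜 (DirectSum.decompose 𝒜 a 0).2, sub_self]

theorem awayMap_surjective (f : 𝒜 →+*ᵍ ℬ) (hs : Function.Surjective f) {i : ℕ} {s : A}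
    (hsi : s ∈ 𝒜 i) : Function.Surjective (Away.map f s : Away 𝒜 s →+* Away ℬ (f s)) := by
  intro y
  obtain ⟨n, b, hb, rfl⟩ := y.mk_surjective _ (f.2 hsi)
  obtain ⟨a, ha, rfl⟩ := exists_homogeneous_lift f hs hb
  exact ⟨Away.mk 𝒜 hsi n a ha, by rw [Away.map_mk]⟩

theorem isPullback_projMap (f : 𝒜 →+*ᵍ ℬ) (hf : irrelevant ℬ ≤ (irrelevant 𝒜).map f)
    {i : ℕ} (hi : 0 < i) (s : A) (hs : s ∈ 𝒜 i) :
    IsPullback (Spec.map (CommRingCat.ofHom (Away.map f s)))
      (Proj.awayι ℬ (f s) (f.2 hs) hi) (Proj.awayι 𝒜 s hs hi) (Proj.map f hf) := by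
  have h1 : IsOpenImmersion (Proj.awayι ℬ (f s) (f.2 hs) hi) := inferInstance
  have h2 : IsOpenImmersion (Proj.awayι 𝒜 s hs hi) := inferInstance
  refine IsOpenImmersion.isPullback _ _ _ _ (Proj.awayι_comp_map f hf hi _ hs) ?_
  rw [Proj.opensRange_awayι, Proj.opensRange_awayι]
  rfl

theorem isClosedImmersion_pullback_snd (f : 𝒜 →+*ᵍ ℬ)
    (hf : irrelevant ℬ ≤ (irrelevant 𝒜).map f) (hsurj : Function.Surjective f)
    {i : ℕ} (hi : 0 < i) (s : A) (hs : s ∈ 𝒜 i) :
    IsClosedImmersion (Limits.pullback.snd (Proj.map f hf) (Proj.awayι 𝒜 s hs hi)) := by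
  have hp := (isPullback_projMap f hf hi s hs).flip
  have hc : IsClosedImmersion (Spec.map (CommRingCat.ofHom (Away.map f s))) :=
    IsClosedImmersion.spec_of_surjective _ (awayMap_surjective f hsurj hs)
  rw [← hp.isoPullback_inv_snd]
  infer_instance

theorem isClosedImmersion_projMap (f : 𝒜 →+*ᵍ ℬ) (hf : irrelevant ℬ ≤ (irrelevant 𝒜).map f)
    (hs : Function.Surjective f) : IsClosedImmersion (Proj.map f hf) :=
  IsZariskiLocalAtTarget.of_openCover (P := @IsClosedImmersion)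
    (Proj.affineOpenCover 𝒜).openCover fun s =>
      isClosedImmersion_pullback_snd f hf hs s.1.2 (s.2 : A) s.2.2

end FQ
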