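import Mathlib

/-! # Project FQ: adjoining a square root, and kernels of derivations of square zero

`A = B[t]`, `t ^ 2 = T`, free with the basis `1, t` over `B`. If `A` is formally smooth over `k`
then so is `B` (any characteristic), and in characteristic two lifts of homomorphisms from `B` can
be chosen with a prescribed value at `T`; in particular there is a derivation of `B` with the value
`1` at `T`. -/

set_option autoImplicit false

namespace Pool.Agent.Helper33.FQ

open Algebra

/-- `1, t` is a basis of `A` over `B`, and `t ^ 2 = T`. -/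
structure IsSqrt (B : Type*) {A : Type*} [CommRing B] [CommRing A] [Algebra B A] (t : A) (T : B) :
    Prop where
  sq : t * t = algebraMap B A T
  ex : ∀ a : A, ∃ b c : B, a = algebraMap B A b + algebraMap B A c * t
  uniq : ∀ b c : B, algebraMap B A b + algebraMap B A c * t = 0 → b = 0 ∧ c = 0

section Lift

variable {k B A C D : Type*} [CommRing k] [CommRing B] [CommRing A] [CommRing C] [CommRing D]
  [Algebra k B] [Algebra k A] [Algebra B A] [IsScalarTower k B A] [Algebra k C] [Algebra k D]

/-- The functorial map between quadratic algebras. -/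
private def qmap (q : C →ₐ[k] D) (a : C) (b : D) (h : q a = b) :
    QuadraticAlgebra C a 0 →ₐ[k] QuadraticAlgebra D b 0 where
  toFun z := ⟨q z.re, q z.im⟩
  map_one' := by
    ext <;> simp [QuadraticAlgebra.re_one, QuadraticAlgebra.im_one]
  map_mul' x y := by
    ext <;> simp [h]
  map_zero' := by
    ext <;> simp
  map_add' x y := by
    ext <;> simp
  commutes' r := by
    ext
    · exact q.commutes r
    · exact map_zero q

private theorem qmap_re (q : C →ₐ[k] D) (a : C) (b : D) (h : q a = b)
    (z : QuadraticAlgebra C a 0) : (qmap q a b h z).re = q z.re := rfl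

private theorem qmap_im (q : C →ₐ[k] D) (a : C) (b : D) (h : q a = b)
    (z : QuadraticAlgebra C a 0) : (qmap q a b h z).im = q z.im := rfl

variable {t : A} {T : B}

private noncomputable def cre (h : IsSqrt B t T) (a : A) : B := (h.ex a).choose

private noncomputable def cim (h : IsSqrt B t T) (a : A) : B := (h.ex a).choose_spec.choose

private theorem cspec (h : IsSqrt B t T) (a : A) :
    a = algebraMap B A (cre h a) + algebraMap B A (cim h a) * t :=
  (h.ex a).choose_spec.choose_spec

private theorem cuniq (h : IsSqrt B t T) {a : A} {b c : B}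
    (e : a = algebraMap B A b + algebraMap B A c * t) : cre h a = b ∧ cim h a = c := by
  have h1 := cspec h a
  have h2 := h.uniq (cre h a - b) (cim h a - c) (by
    rw [map_sub, map_sub]
    linear_combination e - h1)
  exact ⟨sub_eq_zero.1 h2.1, sub_eq_zero.1 h2.2⟩

/-- The isomorphism with the quadratic algebra. -/
private noncomputable def toQ (h : IsSqrt B t T) : A →ₐ[k] QuadraticAlgebra B T 0 where
  toFun a := ⟨cre h a, cim h a⟩
  map_one' := by
    obtain ⟨h1, h2⟩ := cuniq h (a := 1) (b := 1) (c := 0) (by simp)
    ext
    · rw [QuadraticAlgebra.re_one]; exact h1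
    · rw [QuadraticAlgebra.im_one]; exact h2
  map_mul' x y := by
    obtain ⟨h1, h2⟩ := cuniq h (a := x * y)
      (b := cre h x * cre h y + T * (cim h x * cim h y))
      (c := cre h x * cim h y + cim h x * cre h y) (by
        have hx := cspec h x
        have hy := cspec h y
        have ht := h.sq
        rw [map_add, map_add, map_mul, map_mul, map_mul, map_mul, map_mul, ← ht]
        set a := algebraMap B A (cre h x)
        set b := algebraMap B A (cim h x)
        set c := algebraMap B A (cre h y)
        set d := algebraMap B A (cim h y)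
        rw [hx, hy]
        ring)
    ext
    · rw [QuadraticAlgebra.re_mul]
      change cre h (x * y) = _
      rw [h1]
      ring
    · rw [QuadraticAlgebra.im_mul]
      change cim h (x * y) = _
      rw [h2]
      ring
  map_zero' := by
    obtain ⟨h1, h2⟩ := cuniq h (a := 0) (b := 0) (c := 0) (by simp)
    ext
    · exact h1
    · exact h2
  map_add' x y := by
    obtain ⟨h1, h2⟩ := cuniq h (a := x + y) (b := cre h x + cre h y)
      (c := cim h x + cim h y) (by
        have hx := cspec h x
        have hy := cspec h y
        rw [map_add, map_add]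
        linear_combination hx + hy)
    ext
    · exact h1
    · exact h2
  commutes' r := by
    obtain ⟨h1, h2⟩ := cuniq h (a := algebraMap k A r) (b := algebraMap k B r) (c := 0) (by
      rw [map_zero, zero_mul, add_zero, ← IsScalarTower.algebraMap_apply])
    ext
    · exact h1
    · exact h2

private theorem toQ_re (h : IsSqrt B t T) (b : B) :
    (toQ (k := k) h (algebraMap B A b)).re = b :=
  (cuniq h (a := algebraMap B A b) (b := b) (c := 0) (by simp)).1

private theorem toQ_im (h : IsSqrt B t T) (b : B) :
    (toQ (k := k) h (algebraMap B A b)).im = 0 :=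
  (cuniq h (a := algebraMap B A b) (b := b) (c := 0) (by simp)).2

private theorem toQ_t_re (h : IsSqrt B t T) : (toQ (k := k) h t).re = 0 :=
  (cuniq h (a := t) (b := 0) (c := 1) (by simp)).1

private theorem toQ_t_im (h : IsSqrt B t T) : (toQ (k := k) h t).im = 1 :=
  (cuniq h (a := t) (b := 0) (c := 1) (by simp)).2

/-- Homomorphisms from `B` lift along surjections with a kernel of square zero, if `A = B[t]`,
`t ^ 2 = T`, is formally smooth; in characteristic two one can prescribe the value at `T`. -/
theorem exists_lift_sqrt [FormallySmooth k A] (h : IsSqrt B t T) (q : C →ₐ[k] D)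
    (hq : Function.Surjective q) (hker : ∀ x y, q x = 0 → q y = 0 → x * y = 0)
    (g : B →ₐ[k] D) (Tt : C) (hT : q Tt = g T) :
    ∃ f : B →ₐ[k] C, (∀ b, q (f b) = g b) ∧ ((2 : C) = 0 → f T = Tt) := by
  let Q : QuadraticAlgebra C Tt 0 →ₐ[k] QuadraticAlgebra D (g T) 0 := qmap q Tt (g T) hT
  let F : A →ₐ[k] QuadraticAlgebra D (g T) 0 := (qmap g T (g T) rfl).comp (toQ h)
  have hQ : Function.Surjective Q := by
    rintro ⟨x, y⟩
    obtain ⟨x', rfl⟩ := hq x
    obtain ⟨y', rfl⟩ := hq y
    exact ⟨⟨x', y'⟩, rfl⟩
  have hnil : IsNilpotent (RingHom.ker (Q : QuadraticAlgebra C Tt 0 →+* QuadraticAlgebra D (g T) 0)) := by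
    refine ⟨2, ?_⟩
    rw [pow_two, Ideal.zero_eq_bot, eq_bot_iff, Ideal.mul_le]
    intro r hr s hs
    rw [RingHom.mem_ker] at hr hs
    have r1 : q r.re = 0 := congrArg QuadraticAlgebra.re hr
    have r2 : q r.im = 0 := congrArg QuadraticAlgebra.im hr
    have s1 : q s.re = 0 := congrArg QuadraticAlgebra.re hs
    have s2 : q s.im = 0 := congrArg QuadraticAlgebra.im hs
    rw [Ideal.mem_bot]
    ext
    · rw [QuadraticAlgebra.re_mul, hker _ _ r1 s1, mul_assoc, hker _ _ r2 s2]
      simp
    · rw [QuadraticAlgebra.im_mul, hker _ _ r1 s2, hker _ _ r2 s1]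
      simp
  let G : A →ₐ[k] QuadraticAlgebra C Tt 0 := FormallySmooth.liftOfSurjective F Q hQ hnil
  have hG : ∀ a, Q (G a) = F a := FormallySmooth.liftOfSurjective_apply F Q hQ hnil
  have hG1 : ∀ b : B, q (G (algebraMap B A b)).re = g b := by
    intro b
    have h1 := congrArg QuadraticAlgebra.re (hG (algebraMap B A b))
    have h2 : (F (algebraMap B A b)).re = g b := by
      change g (toQ (k := k) h (algebraMap B A b)).re = g b
      rw [toQ_re]
    rw [h2] at h1
    exact h1
  have hG2 : ∀ b : B, q (G (algebraMap B A b)).im = 0 := by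
    intro b
    have h1 := congrArg QuadraticAlgebra.im (hG (algebraMap B A b))
    have h2 : (F (algebraMap B A b)).im = 0 := by
      change g (toQ (k := k) h (algebraMap B A b)).im = 0
      rw [toQ_im, map_zero]
    rw [h2] at h1
    exact h1
  let f : B →ₐ[k] C :=
    { toFun := fun b => (G (algebraMap B A b)).re
      map_one' := by
        rw [map_one, map_one]
        rfl
      map_mul' := by
        intro x y
        rw [map_mul, map_mul, QuadraticAlgebra.re_mul, mul_assoc, hker _ _ (hG2 x) (hG2 y)]
        simp
      map_zero' := by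
        rw [map_zero, map_zero]
        rfl
      map_add' := by
        intro x y
        rw [map_add, map_add, QuadraticAlgebra.re_add]
      commutes' := by
        intro r
        rw [← IsScalarTower.algebraMap_apply, AlgHom.commutes]
        rfl }
  refine ⟨f, hG1, fun h2 => ?_⟩
  change (G (algebraMap B A T)).re = Tt
  rw [← h.sq, map_mul, QuadraticAlgebra.re_mul]
  have e1 : q (G t).re = 0 := by
    have h1 := congrArg QuadraticAlgebra.re (hG t)
    have h3 : (F t).re = 0 := by
      change g (toQ (k := k) h t).re = 0
      rw [toQ_t_re, map_zero]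
    rw [h3] at h1
    exact h1
  have e2 : q ((G t).im - 1) = 0 := by
    have h1 := congrArg QuadraticAlgebra.im (hG t)
    have h3 : (F t).im = 1 := by
      change g (toQ (k := k) h t).im = 1
      rw [toQ_t_im, map_one]
    rw [h3] at h1
    rw [map_sub, map_one]
    exact sub_eq_zero.2 h1
  have e3 := hker _ _ e1 e1
  have e4 := hker _ _ e2 e2
  have e5 : (G t).im * (G t).im = 1 := by
    linear_combination e4 + ((G t).im - 1) * h2
  linear_combination e3 + Tt * e5

end Lift

section Smooth

universe u v

variable {k : Type u} {B : Type v} {A : Type*} [CommRing k] [CommRing B] [CommRing A]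
  [Algebra k B] [Algebra k A] [Algebra B A] [IsScalarTower k B A] {t : A} {T : B}

/-- If `A = B[t]`, `t ^ 2 = T`, is formally smooth over `k` then `B` is formally smooth. -/
theorem formallySmooth_of_sqrt [FormallySmooth k A] (h : IsSqrt B t T) : FormallySmooth k B := by
  refine FormallySmooth.iff_comp_surjective.2 ?_
  intro C _ _ I hI g
  obtain ⟨Tt, hTt⟩ := Ideal.Quotient.mkₐ_surjective k I (g T)
  obtain ⟨f, hf, -⟩ := exists_lift_sqrt (k := k) h (Ideal.Quotient.mkₐ k I)
    (Ideal.Quotient.mkₐ_surjective k I) (by
      intro x y hx hy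
      have h1 : x ∈ I := Ideal.Quotient.eq_zero_iff_mem.1 hx
      have h2 : y ∈ I := Ideal.Quotient.eq_zero_iff_mem.1 hy
      have h3 : x * y ∈ I ^ 2 := by
        rw [pow_two]
        exact Ideal.mul_mem_mul h1 h2
      rw [hI] at h3
      exact Ideal.mem_bot.1 h3) g Tt hTt
  exact ⟨f, AlgHom.ext hf⟩

/-- In characteristic two, if `A = B[t]`, `t ^ 2 = T`, is formally smooth over `k` then `B` has a
derivation with the value `1` at `T`. -/
theorem exists_derivation_of_sqrt [FormallySmooth k A] (h : IsSqrt B t T) (h2 : (2 : B) = 0) :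
    ∃ δ : Derivation k B B, δ T = 1 := by
  obtain ⟨f, hf, hfT⟩ := exists_lift_sqrt (k := k) h (TrivSqZeroExt.fstHom k B B)
    (fun b => ⟨TrivSqZeroExt.inl b, TrivSqZeroExt.fst_inl B b⟩) (by
      intro x y hx hy
      have h1 : x.fst = 0 := hx
      have h3 : y.fst = 0 := hy
      ext
      · rw [TrivSqZeroExt.fst_mul, h1, zero_mul]
        rfl
      · rw [TrivSqZeroExt.snd_mul, h1, h3]
        simp) (AlgHom.id k B) (TrivSqZeroExt.inl T + TrivSqZeroExt.inr 1) (by simp)
  have hT := hfT (by
    ext
    · change (2 : B) = 0
      exact h2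
    · rfl)
  have hf' : ∀ b, (f b).fst = b := hf
  refine ⟨Derivation.mk'
    { toFun := fun b => (f b).snd
      map_add' := fun x y => by rw [map_add, TrivSqZeroExt.snd_add]
      map_smul' := fun r x => by
        rw [map_smul, TrivSqZeroExt.snd_smul, RingHom.id_apply] } ?_, ?_⟩
  · intro a b
    change (f (a * b)).snd = a • (f b).snd + b • (f a).snd
    rw [map_mul, TrivSqZeroExt.snd_mul, hf', hf']
    simp only [smul_eq_mul, MulOpposite.smul_eq_mul_unop, MulOpposite.unop_op]
    ring
  · change (f T).snd = 1
    rw [hT]
    simp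

end Smooth

end Pool.Agent.Helper33.FQ
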